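import Pool.Agent.N343.TC.Stm

/-! Project TC (helper343), part DER (helper897). -/

set_option autoImplicit false

open MeasureTheory Set Filter Topology Metric Complex
open scoped ContDiff RealInnerProductSpace ComplexConjugate

namespace Pool.Agent.N897.TC.DER

open Pool.Agent.N343.TC

theorem main : Pool.Agent.N343.TC.S_DER := by
  intro C
  obtain ⟨K, hK⟩ := exists_nat_ge (1000 * |C|)
  refine ⟨K + 100, fun k hk R H hR hN w hw => ?_⟩
  have hk1 : (100 : ℝ) ≤ k := by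
    have : 100 ≤ k := by omega
    exact_mod_cast this
  have hk0 : k ≠ 0 := by omega
  have hkp : (0 : ℝ) < k := by linarith
  have hkC : 1000 * |C| ≤ k := by
    have : (K : ℝ) ≤ k := by
      have : K ≤ k := by omega
      exact_mod_cast this
    linarith
  have hkc : (k : ℂ) ≠ 0 := by exact_mod_cast hk0
  obtain ⟨hd, hb⟩ := hN
  obtain ⟨lam, hlam⟩ : ∃ lam : ℝ, lam = -(129 / 160) := ⟨_, rfl⟩
  rw [← hlam] at hb
  have hlamn : ‖(lam : ℂ)‖ = 129 / 160 := by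
    rw [Complex.norm_real, hlam, norm_neg, Real.norm_of_nonneg (by norm_num)]
  obtain ⟨E, hE⟩ : ∃ E : ℂ → ℂ, E = fun x => (k : ℂ) ^ 2 * (H x - 1) - (lam : ℂ) * x := ⟨_, rfl⟩
  have hEd : DifferentiableOn ℂ E (ball 0 2) := by
    rw [hE]
    exact ((hd.sub_const 1).const_mul _).sub (differentiableOn_id.const_mul _)
  have hEb : ∀ x ∈ ball (0 : ℂ) 2, ‖E x‖ ≤ 1 / 1000 := by
    intro x hx
    rw [hE]
    refine (hb x hx).trans ?_
    rw [div_le_div_iff₀ hkp (by norm_num)]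
    linarith [le_abs_self C]
  have hH : ∀ x, H x = 1 + ((lam : ℂ) * x + E x) / (k : ℂ) ^ 2 := by
    intro x
    rw [hE]
    field_simp
    ring
  -- Cauchy estimates
  have hsub : ∀ x ∈ ball (0 : ℂ) (11 / 10), closedBall x (1 / 2) ⊆ ball (0 : ℂ) 2 := by
    intro x hx y hy
    rw [mem_ball_zero_iff] at hx ⊢
    rw [mem_closedBall, dist_eq_norm] at hy
    have : ‖y‖ ≤ ‖y - x‖ + ‖x‖ := by
      have := norm_add_le (y - x) x
      rwa [sub_add_cancel] at this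
    linarith
  have hdc : ∀ x ∈ ball (0 : ℂ) (11 / 10), DiffContOnCl ℂ E (ball x (1 / 2)) := by
    intro x hx
    apply DifferentiableOn.diffContOnCl
    rw [closure_ball _ (by norm_num)]
    exact hEd.mono (hsub x hx)
  have hE1 : ∀ x ∈ ball (0 : ℂ) (11 / 10), ‖deriv E x‖ ≤ 1 / 500 := by
    intro x hx
    have h1 := Complex.norm_deriv_le_of_forall_mem_sphere_norm_le (f := E) (c := x)
      (R := 1 / 2) (C := 1 / 1000) (by norm_num) (hdc x hx)
      (fun z hz => hEb z (hsub x hx (sphere_subset_closedBall hz)))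
    linarith
  have hE2 : ∀ x ∈ ball (0 : ℂ) (11 / 10), ‖deriv (deriv E) x‖ ≤ 1 / 125 := by
    intro x hx
    have h1 := Complex.norm_iteratedDeriv_le_of_forall_mem_sphere_norm_le (F := ℂ) (f := E)
      (c := x) (R := 1 / 2) (C := 1 / 1000) 2 (by norm_num) (hdc x hx)
      (fun z hz => hEb z (hsub x hx (sphere_subset_closedBall hz)))
    rw [iteratedDeriv_succ, iteratedDeriv_one] at h1
    refine h1.trans ?_
    norm_num [Nat.factorial]
  have hEd1 : DifferentiableOn ℂ (deriv E) (ball 0 2) := hEd.deriv isOpen_ball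
  -- the disc
  obtain ⟨r, hr⟩ : ∃ r : ℝ, r = (11 / 10 : ℝ) ^ ((1 : ℝ) / k) := ⟨_, rfl⟩
  rw [← hr] at hw
  have hrk : r ^ k = 11 / 10 := by
    rw [hr, one_div, Real.rpow_inv_natCast_pow (by norm_num) hk0]
  have hpow : ∀ z ∈ ball (0 : ℂ) r, z ^ k ∈ ball (0 : ℂ) (11 / 10) := by
    intro z hz
    rw [mem_ball_zero_iff] at hz ⊢
    rw [norm_pow, ← hrk]
    exact pow_lt_pow_left₀ hz (norm_nonneg _) hk0
  have h2 : ball (0 : ℂ) (11 / 10) ⊆ ball 0 2 := ball_subset_ball (by norm_num)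
  have hEat : ∀ x ∈ ball (0 : ℂ) (11 / 10), HasDerivAt E (deriv E x) x := fun x hx =>
    (hEd.differentiableAt (isOpen_ball.mem_nhds (h2 hx))).hasDerivAt
  have hE1at : ∀ x ∈ ball (0 : ℂ) (11 / 10), HasDerivAt (deriv E) (deriv (deriv E) x) x :=
    fun x hx => (hEd1.differentiableAt (isOpen_ball.mem_nhds (h2 hx))).hasDerivAt
  obtain ⟨F1, hF1⟩ : ∃ F1 : ℂ → ℂ, F1 = fun z => (R : ℂ) * ((1 + ((lam : ℂ) * z ^ k + E (z ^ k)) /
      (k : ℂ) ^ 2) + z ^ k * (((lam : ℂ) + deriv E (z ^ k)) / (k : ℂ))) := ⟨_, rfl⟩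
  have hmk : mk R k H = fun z => (R : ℂ) * z * (1 + ((lam : ℂ) * z ^ k + E (z ^ k)) /
      (k : ℂ) ^ 2) := by
    funext z
    unfold Pool.Agent.N343.TC.mk
    rw [hH]
  have hd1 : ∀ z ∈ ball (0 : ℂ) r, HasDerivAt (mk R k H) (F1 z) z := by
    intro z hz
    have hp := hasDerivAt_pow k z
    have h3 : HasDerivAt (fun z : ℂ => E (z ^ k)) (deriv E (z ^ k) * ((k : ℂ) * z ^ (k - 1))) z :=
      HasDerivAt.comp z (hEat _ (hpow z hz)) hp
    have h4 : HasDerivAt (fun z : ℂ => (R : ℂ) * z) (R : ℂ) z := by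
      simpa using (hasDerivAt_id z).const_mul (R : ℂ)
    have h5 : HasDerivAt (fun z : ℂ => (R : ℂ) * z * (1 + ((lam : ℂ) * z ^ k + E (z ^ k)) /
        (k : ℂ) ^ 2)) ((R : ℂ) * (1 + ((lam : ℂ) * z ^ k + E (z ^ k)) / (k : ℂ) ^ 2) +
        (R : ℂ) * z * (((lam : ℂ) * ((k : ℂ) * z ^ (k - 1)) +
        deriv E (z ^ k) * ((k : ℂ) * z ^ (k - 1))) / (k : ℂ) ^ 2)) z :=
      h4.mul ((((hp.const_mul (lam : ℂ)).add h3).div_const ((k : ℂ) ^ 2)).const_add 1)
    rw [hmk, hF1]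
    refine h5.congr_deriv ?_
    have h6 : z ^ k = z * z ^ (k - 1) := (mul_pow_sub_one hk0 z).symm
    have h7 : (R : ℂ) * z * (((lam : ℂ) * ((k : ℂ) * z ^ (k - 1)) +
        deriv E (z ^ k) * ((k : ℂ) * z ^ (k - 1))) / (k : ℂ) ^ 2) =
        (R : ℂ) * ((z * z ^ (k - 1)) * (((lam : ℂ) + deriv E (z ^ k)) / (k : ℂ))) := by
      field_simp
    rw [h7, ← h6]
    ring
  have hd2 : deriv (mk R k H) w = F1 w := (hd1 w hw).deriv
  have hd3 : deriv (deriv (mk R k H)) w = deriv F1 w := by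
    apply Filter.EventuallyEq.deriv_eq
    filter_upwards [isOpen_ball.mem_nhds hw] with z hz
    exact (hd1 z hz).deriv
  obtain ⟨t, ht⟩ : ∃ t : ℂ, t = w ^ k := ⟨_, rfl⟩
  have htm : t ∈ ball (0 : ℂ) (11 / 10) := by
    rw [ht]
    exact hpow w hw
  have hd4 : w * deriv F1 w = (R : ℂ) * (t * ((((k : ℂ) + 1) / k) * ((lam : ℂ) + deriv E t) +
      t * deriv (deriv E) t)) := by
    have hp := hasDerivAt_pow k w
    have h3 : HasDerivAt (fun z : ℂ => E (z ^ k)) (deriv E (w ^ k) * ((k : ℂ) * w ^ (k - 1))) w :=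
      HasDerivAt.comp w (hEat _ (hpow w hw)) hp
    have h4 : HasDerivAt (fun z : ℂ => deriv E (z ^ k))
        (deriv (deriv E) (w ^ k) * ((k : ℂ) * w ^ (k - 1))) w :=
      HasDerivAt.comp w (hE1at _ (hpow w hw)) hp
    have h5 : HasDerivAt (fun z : ℂ => (R : ℂ) * ((1 + ((lam : ℂ) * z ^ k + E (z ^ k)) /
      (k : ℂ) ^ 2) + z ^ k * (((lam : ℂ) + deriv E (z ^ k)) / (k : ℂ))))
      ((R : ℂ) * ((((lam : ℂ) * ((k : ℂ) * w ^ (k - 1)) +
        deriv E (w ^ k) * ((k : ℂ) * w ^ (k - 1))) / (k : ℂ) ^ 2) +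
        (((k : ℂ) * w ^ (k - 1)) * (((lam : ℂ) + deriv E (w ^ k)) / (k : ℂ)) +
          w ^ k * ((deriv (deriv E) (w ^ k) * ((k : ℂ) * w ^ (k - 1))) / (k : ℂ))))) w :=
      (((((hp.const_mul (lam : ℂ)).add h3).div_const ((k : ℂ) ^ 2)).const_add 1).add
      (hp.mul ((h4.const_add (lam : ℂ)).div_const (k : ℂ)))).const_mul (R : ℂ)
    rw [hF1, h5.deriv]
    have h7 : w ^ k = w * w ^ (k - 1) := (mul_pow_sub_one hk0 w).symm
    rw [ht]
    obtain ⟨e1, he1⟩ : ∃ e1, e1 = deriv E (w ^ k) := ⟨_, rfl⟩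
    obtain ⟨e2, he2⟩ : ∃ e2, e2 = deriv (deriv E) (w ^ k) := ⟨_, rfl⟩
    rw [← he1, ← he2, h7]
    field_simp
    ring
  rw [hd2, hd3, hd4]
  -- norms
  have htn : ‖t‖ < 11 / 10 := by rwa [mem_ball_zero_iff] at htm
  have ht0 : 0 ≤ ‖t‖ := norm_nonneg t
  have b1 := hE1 t htm
  have b2 := hE2 t htm
  have b0 := hEb t (h2 htm)
  have n1 : ‖((k : ℂ) + 1) / k‖ ≤ 101 / 100 := by
    rw [norm_div]
    have : ‖(k : ℂ) + 1‖ = (k : ℝ) + 1 := by
      have h : (k : ℂ) + 1 = (((k : ℝ) + 1 : ℝ) : ℂ) := by push_cast; rfl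
      rw [h, Complex.norm_real, Real.norm_of_nonneg (by linarith)]
    rw [this, Complex.norm_natCast, div_le_div_iff₀ hkp (by norm_num)]
    linarith
  have n2 : ‖(lam : ℂ) + deriv E t‖ ≤ 129 / 160 + 1 / 500 := by
    refine (norm_add_le _ _).trans ?_
    rw [hlamn]
    linarith
  have n3 : ‖(lam : ℂ) * t + E t‖ ≤ 1 := by
    refine (norm_add_le _ _).trans ?_
    rw [norm_mul, hlamn]
    nlinarith
  have L : ‖(R : ℂ) * (t * ((((k : ℂ) + 1) / k) * ((lam : ℂ) + deriv E t) +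
      t * deriv (deriv E) t))‖ ≤ R * (92 / 100) := by
    rw [norm_mul, Complex.norm_real, Real.norm_of_nonneg hR.le]
    apply mul_le_mul_of_nonneg_left _ hR.le
    rw [norm_mul]
    have m1 : ‖(((k : ℂ) + 1) / k) * ((lam : ℂ) + deriv E t)‖ ≤ (101 / 100) * (129 / 160 + 1 / 500) := by
      rw [norm_mul]
      exact mul_le_mul n1 n2 (norm_nonneg _) (by norm_num)
    have m2 : ‖t * deriv (deriv E) t‖ ≤ (11 / 10) * (1 / 125) := by
      rw [norm_mul]
      exact mul_le_mul htn.le b2 (norm_nonneg _) (by norm_num)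
    have m3 := (norm_add_le ((((k : ℂ) + 1) / k) * ((lam : ℂ) + deriv E t))
      (t * deriv (deriv E) t)).trans (add_le_add m1 m2)
    have m4 := mul_le_mul htn.le m3 (norm_nonneg _) (by norm_num)
    refine m4.trans ?_
    norm_num
  have U : R * (92 / 100) ≤ ‖F1 w‖ := by
    rw [hF1]
    simp only
    rw [← ht, norm_mul, Complex.norm_real, Real.norm_of_nonneg hR.le]
    apply mul_le_mul_of_nonneg_left _ hR.le
    have m1 : ‖((lam : ℂ) * t + E t) / (k : ℂ) ^ 2‖ ≤ 1 / 100 := by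
      rw [norm_div, norm_pow, Complex.norm_natCast, div_le_div_iff₀ (by positivity) (by norm_num)]
      nlinarith
    have m2 : ‖t * (((lam : ℂ) + deriv E t) / (k : ℂ))‖ ≤ 1 / 50 := by
      rw [norm_mul, norm_div, Complex.norm_natCast]
      have h8 : ‖(lam : ℂ) + deriv E t‖ / (k : ℝ) ≤ 1 / 100 := by
        rw [div_le_div_iff₀ hkp (by norm_num)]
        linarith
      have h9 : 0 ≤ ‖(lam : ℂ) + deriv E t‖ / (k : ℝ) := by positivity
      nlinarith
    have m3 : (1 : ℂ) = (1 + ((lam : ℂ) * t + E t) / (k : ℂ) ^ 2 +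
        t * (((lam : ℂ) + deriv E t) / (k : ℂ))) - (((lam : ℂ) * t + E t) / (k : ℂ) ^ 2 +
        t * (((lam : ℂ) + deriv E t) / (k : ℂ))) := by ring
    have m4 : ‖(1 : ℂ)‖ ≤ ‖1 + ((lam : ℂ) * t + E t) / (k : ℂ) ^ 2 +
        t * (((lam : ℂ) + deriv E t) / (k : ℂ))‖ + ‖((lam : ℂ) * t + E t) / (k : ℂ) ^ 2 +
        t * (((lam : ℂ) + deriv E t) / (k : ℂ))‖ := by
      conv_lhs => rw [m3]
      exact norm_sub_le _ _
    have m5 := norm_add_le (((lam : ℂ) * t + E t) / (k : ℂ) ^ 2)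
      (t * (((lam : ℂ) + deriv E t) / (k : ℂ)))
    rw [norm_one] at m4
    linarith
  exact L.trans U

end Pool.Agent.N897.TC.DER
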